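import Mathlib

/-!
The Game of Cycles on a triangle-free board with nine edges on which Player 2 wins: a hexagon
divided into three quadrilaterals by joining a centre to three alternate corners.
-/

namespace Pool.Agent.Results.MP_b0ae03_co.ThreeRhombi

/-- A connected plane drawing of the graph `G`, up to homeomorphism of the plane, recorded as a
rotation system together with its regions.  For adjacent `u, v`, `next u v` is the neighbour of `u`
that follows `v` in the cyclic (say clockwise) order of the neighbours of `u`; `face u v` is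
the region on the left of the arc from `u` to `v`.  Going from the arc `(u, v)` to the arc
`(v, next v u)` one walks around the boundary of a region, and the regions correspond
to the orbits of this walk.  Euler's formula says that the surface is the sphere; the region `outer`
is the unbounded one, all other regions are the cells. -/
structure Drawing {V : Type} [Fintype V] (G : SimpleGraph V) (F : Type) [Fintype F] where
  connected : G.Connected
  next : V → V → V
  next_adj : ∀ u v, G.Adj u v → G.Adj u (next u v)
  next_cyclic : ∀ u v w, G.Adj u v → G.Adj u w → ∃ k : ℕ, (next u)^[k] v = w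
  face : V → V → F
  face_surj : ∀ f : F, ∃ u v, G.Adj u v ∧ face u v = f
  face_orbit : ∀ u v x y, G.Adj u v → G.Adj x y →
    (face u v = face x y ↔ ∃ k : ℕ, (fun p : V × V => (p.2, next p.2 p.1))^[k] (u, v) = (x, y))
  euler : Fintype.card V + Fintype.card F = G.edgeSet.ncard + 2
  outer : F

section Game

variable {V : Type} [Fintype V] [DecidableEq V] {F : Type} [Fintype F]

/-- The vertex `x` is a sink for the set `A` of arrows: all its edges are marked and all arrows
point toward it.  (An isolated vertex is not a sink.) -/
def IsSink (G : SimpleGraph V) (A : Finset (V × V)) (x : V) : Prop :=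
  (∃ y, G.Adj x y) ∧ ∀ y, G.Adj x y → (y, x) ∈ A

/-- The vertex `x` is a source for the set `A` of arrows. -/
def IsSource (G : SimpleGraph V) (A : Finset (V × V)) (x : V) : Prop :=
  (∃ y, G.Adj x y) ∧ ∀ y, G.Adj x y → (x, y) ∈ A

/-- It is legal to mark the edge `uv` by the arrow from `u` to `v` when `A` is the set of
arrows so far: `uv` is an unmarked edge and afterwards there is no sink and no source. -/
def Legal (G : SimpleGraph V) (A : Finset (V × V)) (u v : V) : Prop :=
  G.Adj u v ∧ (u, v) ∉ A ∧ (v, u) ∉ A ∧
    ∀ x, ¬ IsSink G (insert (u, v) A) x ∧ ¬ IsSource G (insert (u, v) A) x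

/-- `f` is a cycle cell: it is a bounded region, and all its boundary edges are marked
consistently around it in one of the two directions. -/
def CycleCell {G : SimpleGraph V} (D : Drawing G F) (A : Finset (V × V)) (f : F) : Prop :=
  f ≠ D.outer ∧ ((∀ u v, G.Adj u v → D.face u v = f → (u, v) ∈ A) ∨
    (∀ u v, G.Adj u v → D.face u v = f → (v, u) ∈ A))

/-- The player to move has a winning strategy when `A` is the set of arrows so far (and no
cycle cell has been created): either some legal move creates a cycle cell, or there is
a legal move after which no legal reply creates a cycle cell and after every legal reply the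
same player again has a winning strategy (in particular this holds when there is no legal
reply). -/
inductive MoverWins {G : SimpleGraph V} (D : Drawing G F) : Finset (V × V) → Prop
  | cycle (A : Finset (V × V)) (u v : V) (h : Legal G A u v)
      (hc : ∃ f, CycleCell D (insert (u, v) A) f) : MoverWins D A
  | step (A : Finset (V × V)) (u v : V) (h : Legal G A u v)
      (h1 : ∀ x y, Legal G (insert (u, v) A) x y →
        ¬ ∃ f, CycleCell D (insert (x, y) (insert (u, v) A)) f)
      (h2 : ∀ x y, Legal G (insert (u, v) A) x y →
        MoverWins D (insert (x, y) (insert (u, v) A))) : MoverWins D A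

/-- Player 2 has a winning strategy: no first move of Player 1 creates a cycle cell, and
after every first move Player 2, who is then to move, has a winning strategy. -/
def PlayerTwoWins {G : SimpleGraph V} (D : Drawing G F) : Prop :=
  ∀ u v, Legal G ∅ u v → (¬ ∃ f, CycleCell D (insert (u, v) ∅) f) ∧
    MoverWins D (insert (u, v) ∅)

end Game

/-- The edges of the board: `1` is the centre, `0, 4, 5, 6, 2, 3` is the hexagon. -/
def edges : List (Fin 7 × Fin 7) :=
  [(0, 1), (1, 2), (1, 5), (0, 4), (4, 5), (5, 6), (6, 2), (2, 3), (3, 0)]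

/-- The graph of the board. -/
def G : SimpleGraph (Fin 7) where
  Adj u v := (u, v) ∈ edges ∨ (v, u) ∈ edges
  symm := ⟨fun _ _ h => h.symm⟩
  loopless := ⟨by decide⟩

instance : DecidableRel G.Adj := fun u v => inferInstanceAs (Decidable ((u, v) ∈ edges ∨ _))

/-- The rotation system, at position `7 u + v`. -/
def nextTab : List (Fin 7) :=
  [0, 3, 0, 4, 1, 0, 0, 5, 0, 0, 0, 0, 2, 0, 0, 6, 0, 1, 0, 0, 3, 2, 0, 0, 0, 0, 0, 0, 5, 0, 0,
   0, 0, 0, 0, 0, 4, 0, 0, 6, 0, 1, 0, 0, 5, 0, 0, 2, 0]

/-- The regions, at position `7 u + v`; the region `3` is the outer one. -/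
def faceTab : List (Fin 4) :=
  [0, 0, 0, 1, 3, 0, 0, 1, 0, 2, 0, 0, 0, 0, 0, 1, 0, 3, 0, 0, 2, 3, 0, 1, 0, 0, 0, 0, 0, 0, 0,
   0, 0, 3, 0, 0, 2, 0, 0, 0, 0, 3, 0, 0, 3, 0, 0, 2, 0]

/-- The rotation system. -/
def nx (u v : Fin 7) : Fin 7 := nextTab.getD (7 * u.val + v.val) 0

/-- The regions. -/
def fc (u v : Fin 7) : Fin 4 := faceTab.getD (7 * u.val + v.val) 0

theorem step_fc : ∀ u v, G.Adj u v → fc v (nx v u) = fc u v ∧ G.Adj v (nx v u) := by
  decide +kernel

theorem iter_fc (k : ℕ) : ∀ p : Fin 7 × Fin 7, G.Adj p.1 p.2 →
    fc (((fun p : Fin 7 × Fin 7 => (p.2, nx p.2 p.1))^[k] p).1)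
      (((fun p : Fin 7 × Fin 7 => (p.2, nx p.2 p.1))^[k] p).2) = fc p.1 p.2 := by
  induction k with
  | zero => intro p _; rfl
  | succ k ih =>
    intro p hp
    rw [Function.iterate_succ_apply]
    obtain ⟨h1, h2⟩ := step_fc p.1 p.2 hp
    rw [ih (p.2, nx p.2 p.1) h2]
    exact h1

theorem orbit_check : ∀ u v x y, G.Adj u v → G.Adj x y → fc u v = fc x y →
    ∃ k < 6, (fun p : Fin 7 × Fin 7 => (p.2, nx p.2 p.1))^[k] (u, v) = (x, y) := by
  decide +kernel

theorem G_conn : G.Connected := by
  have h : ∀ v : Fin 7, G.Reachable 1 v := by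
    have a0 : G.Adj 1 0 := by decide
    have a2 : G.Adj 1 2 := by decide
    have a5 : G.Adj 1 5 := by decide
    have a4 : G.Adj 0 4 := by decide
    have a6 : G.Adj 5 6 := by decide
    have a3 : G.Adj 0 3 := by decide
    intro v
    fin_cases v
    · exact a0.reachable
    · exact SimpleGraph.Reachable.refl _
    · exact a2.reachable
    · exact a0.reachable.trans a3.reachable
    · exact a0.reachable.trans a4.reachable
    · exact a5.reachable
    · exact a5.reachable.trans a6.reachable
  exact ⟨fun u v => (h u).symm.trans (h v)⟩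

theorem edge_count : G.edgeSet.ncard = 9 := by
  rw [Set.ncard_eq_toFinset_card']
  decide +kernel

/-- The drawing of the board. -/
def D : Drawing G (Fin 4) where
  connected := G_conn
  next := nx
  next_adj := by decide +kernel
  next_cyclic := by
    have h : ∀ u v w, G.Adj u v → G.Adj u w → ∃ k < 3, (nx u)^[k] v = w := by decide +kernel
    intro u v w h1 h2
    obtain ⟨k, -, hk⟩ := h u v w h1 h2
    exact ⟨k, hk⟩
  face := fc
  face_surj := by decide +kernel
  face_orbit := by
    intro u v x y h1 h2
    constructor
    · intro h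
      obtain ⟨k, -, hk⟩ := orbit_check u v x y h1 h2 h
      exact ⟨k, hk⟩
    · rintro ⟨k, hk⟩
      have := iter_fc k (u, v) h1
      rw [hk] at this
      exact this.symm
  euler := by rw [edge_count]; rfl
  outer := 3

/-! ### Bit masks -/

/-- The index of a pair. -/
def idx (p : Fin 7 × Fin 7) : ℕ := 7 * p.1.val + p.2.val

/-- The pair with a given index. -/
def prt (i : ℕ) : Fin 7 × Fin 7 := (Fin.ofNat 7 (i / 7), Fin.ofNat 7 (i % 7))

theorem idx_lt (p : Fin 7 × Fin 7) : idx p < 49 := by
  unfold idx; omega

theorem prt_idx : ∀ p : Fin 7 × Fin 7, prt (idx p) = p := by decide +kernel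

theorem idx_prt : ∀ i < 49, idx (prt i) = i := by decide +kernel

theorem idx_inj {p q : Fin 7 × Fin 7} (h : idx p = idx q) : p = q := by
  rw [← prt_idx p, h, prt_idx]

/-- The set coded by a bit mask. -/
def toSet (M : ℕ) : Finset (Fin 7 × Fin 7) := Finset.univ.filter (fun p => M.testBit (idx p) = true)

theorem mem_toSet (M : ℕ) (p : Fin 7 × Fin 7) : p ∈ toSet M ↔ M.testBit (idx p) = true := by
  simp [toSet]

theorem insert_toSet (M : ℕ) (p : Fin 7 × Fin 7) :
    insert p (toSet M) = toSet (M ||| 2 ^ idx p) := by
  ext q
  rw [Finset.mem_insert, mem_toSet, mem_toSet, Nat.testBit_or, Nat.testBit_two_pow]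
  simp only [Bool.or_eq_true, decide_eq_true_eq]
  constructor
  · rintro (h | h)
    · right; rw [h]
    · left; exact h
  · rintro (h | h)
    · right; exact h
    · left; exact (idx_inj h).symm

/-- `N` codes a subset of the set coded by `M`. -/
def sub (N M : ℕ) : Bool := M &&& N == N

theorem sub_iff (N M : ℕ) : sub N M = true ↔ ∀ i, N.testBit i = true → M.testBit i = true := by
  unfold sub
  rw [beq_iff_eq]
  constructor
  · intro h i hi
    rw [← h, Nat.testBit_and, Bool.and_eq_true] at hi
    exact hi.1
  · intro h
    apply Nat.eq_of_testBit_eq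
    intro i
    rw [Nat.testBit_and]
    cases hN : N.testBit i
    · simp
    · simp [h i hN]

/-- The arcs into each vertex, as bit masks. -/
def inm : List ℕ :=
  [270532736, 68719509506, 17592194433536, 131080, 549755813904, 140746078294016,
   2199024304128]

/-- The arcs out of each vertex, as bit masks. -/
def outm : List ℕ :=
  [26, 4736, 1212416, 10485760, 8858370048, 2817498546176, 158329674399744]

/-- The two orientations of each cell, as bit masks. -/
def cellm : List ℕ :=
  [550024253442, 77309411472, 8421512, 2228738, 140806208881152, 19791209336832]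

/-- The indices of the arcs. -/
def darts : List ℕ :=
  [1, 3, 4, 7, 9, 12, 15, 17, 20, 21, 23, 28, 33, 36, 39, 41, 44, 47]

theorem inm_spec : ∀ x : Fin 7, ∀ i < 49, ((inm.getD x.val 0).testBit i = true ↔
    ((prt i).2 = x ∧ G.Adj x (prt i).1)) := by decide +kernel

theorem outm_spec : ∀ x : Fin 7, ∀ i < 49, ((outm.getD x.val 0).testBit i = true ↔
    ((prt i).1 = x ∧ G.Adj x (prt i).2)) := by decide +kernel

theorem m_lt : (∀ x : Fin 7, inm.getD x.val 0 < 2 ^ 49 ∧ outm.getD x.val 0 < 2 ^ 49) ∧
    ∀ i < 6, cellm.getD i 0 < 2 ^ 49 := by decide +kernel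

theorem cellm_spec : ∀ f : Fin 3, ∀ i < 49,
    ((cellm.getD (2 * f.val) 0).testBit i = true ↔
      (G.Adj (prt i).1 (prt i).2 ∧ fc (prt i).1 (prt i).2 = Fin.castSucc f)) ∧
    ((cellm.getD (2 * f.val + 1) 0).testBit i = true ↔
      (G.Adj (prt i).2 (prt i).1 ∧ fc (prt i).2 (prt i).1 = Fin.castSucc f)) := by
  decide +kernel

theorem darts_spec : ∀ u v : Fin 7, G.Adj u v ↔ idx (u, v) ∈ darts := by decide +kernel

theorem darts_lt : ∀ i ∈ darts, i < 49 := by decide

theorem lt_of_testBit {N i : ℕ} (hN : N < 2 ^ 49) (h : N.testBit i = true) : i < 49 := by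
  by_contra hcon
  have := Nat.testBit_lt_two_pow (lt_of_lt_of_le hN
    (Nat.pow_le_pow_right (by norm_num) (not_lt.1 hcon)))
  rw [this] at h
  exact absurd h (by simp)

theorem sink_iff (M : ℕ) (x : Fin 7) :
    IsSink G (toSet M) x ↔ sub (inm.getD x.val 0) M = true := by
  rw [sub_iff]
  constructor
  · rintro ⟨-, h⟩ i hi
    have hlt := lt_of_testBit (m_lt.1 x).1 hi
    obtain ⟨h1, h2⟩ := (inm_spec x i hlt).1 hi
    have h3 := h _ h2
    rw [mem_toSet] at h3
    rw [← h1] at h3
    rwa [show ((prt i).1, (prt i).2) = prt i from rfl, idx_prt i hlt] at h3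
  · intro h
    refine ⟨?_, ?_⟩
    · clear h; revert x; decide
    · intro y hy
      rw [mem_toSet]
      apply h
      rw [inm_spec x _ (idx_lt _), prt_idx]
      exact ⟨rfl, hy⟩

theorem source_iff (M : ℕ) (x : Fin 7) :
    IsSource G (toSet M) x ↔ sub (outm.getD x.val 0) M = true := by
  rw [sub_iff]
  constructor
  · rintro ⟨-, h⟩ i hi
    have hlt := lt_of_testBit (m_lt.1 x).2 hi
    obtain ⟨h1, h2⟩ := (outm_spec x i hlt).1 hi
    have h3 := h _ h2
    rw [mem_toSet] at h3
    rw [← h1] at h3
    rwa [show ((prt i).1, (prt i).2) = prt i from rfl, idx_prt i hlt] at h3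
  · intro h
    refine ⟨?_, ?_⟩
    · clear h; revert x; decide
    · intro y hy
      rw [mem_toSet]
      apply h
      rw [outm_spec x _ (idx_lt _), prt_idx]
      exact ⟨rfl, hy⟩

/-- The test for cycle cells. -/
def cyc (M : ℕ) : Bool := (List.range 6).any (fun i => sub (cellm.getD i 0) M)

theorem cyc_iff (M : ℕ) : cyc M = true ↔ ∃ f, CycleCell D (toSet M) f := by
  have key : ∀ f : Fin 3, CycleCell D (toSet M) (Fin.castSucc f) ↔
      (sub (cellm.getD (2 * f.val) 0) M = true ∨ sub (cellm.getD (2 * f.val + 1) 0) M = true) := by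
    intro f
    rw [sub_iff, sub_iff]
    unfold CycleCell
    have hne : Fin.castSucc f ≠ D.outer := by
      show Fin.castSucc f ≠ 3
      intro h
      have := congrArg Fin.val h
      simp at this
      omega
    constructor
    · rintro ⟨-, h | h⟩
      · left
        intro i hi
        have hlt := lt_of_testBit (m_lt.2 (2 * f.val) (by omega)) hi
        obtain ⟨h1, h2⟩ := (cellm_spec f i hlt).1.1 hi
        have h3 := h _ _ h1 h2
        rw [mem_toSet] at h3
        rwa [show ((prt i).1, (prt i).2) = prt i from rfl, idx_prt i hlt] at h3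
      · right
        intro i hi
        have hlt := lt_of_testBit (m_lt.2 (2 * f.val + 1) (by omega)) hi
        obtain ⟨h1, h2⟩ := (cellm_spec f i hlt).2.1 hi
        have h3 := h _ _ h1 h2
        rw [mem_toSet] at h3
        rwa [show ((prt i).1, (prt i).2) = prt i from rfl, idx_prt i hlt] at h3
    · intro h
      refine ⟨hne, ?_⟩
      rcases h with h | h
      · left
        intro u v huv hf
        rw [mem_toSet]
        apply h
        rw [(cellm_spec f _ (idx_lt _)).1, prt_idx]
        exact ⟨huv, hf⟩
      · right
        intro u v huv hf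
        rw [mem_toSet]
        apply h
        rw [(cellm_spec f _ (idx_lt _)).2, prt_idx]
        exact ⟨huv, hf⟩
  unfold cyc
  rw [List.any_eq_true]
  constructor
  · rintro ⟨i, hi, hs⟩
    rw [List.mem_range] at hi
    rcases Nat.even_or_odd' i with ⟨c, rfl | rfl⟩
    · exact ⟨_, (key ⟨c, by omega⟩).2 (Or.inl hs)⟩
    · exact ⟨_, (key ⟨c, by omega⟩).2 (Or.inr hs)⟩
  · rintro ⟨f, hf⟩
    have hne : f ≠ 3 := hf.1
    obtain ⟨g, rfl⟩ : ∃ g : Fin 3, f = Fin.castSucc g := by
      refine ⟨⟨f.val, ?_⟩, ?_⟩
      · have := f.isLt
        have h3 : f.val ≠ 3 := fun h => hne (Fin.ext h)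
        omega
      · rfl
    rcases (key g).1 hf with h | h
    · exact ⟨2 * g.val, List.mem_range.2 (by omega), h⟩
    · exact ⟨2 * g.val + 1, List.mem_range.2 (by omega), h⟩

/-- The index of the reversed pair. -/
def rv (i : ℕ) : ℕ := 7 * (i % 7) + i / 7

/-- No vertex is a sink or a source. -/
def good (M : ℕ) : Bool :=
  (List.range 7).all (fun x => !sub (inm.getD x 0) M && !sub (outm.getD x 0) M)

/-- Legality test. -/
def leg (M i : ℕ) : Bool := !M.testBit i && !M.testBit (rv i) && good (M ||| 2 ^ i)

theorem good_iff (M : ℕ) :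
    good M = true ↔ ∀ x, ¬ IsSink G (toSet M) x ∧ ¬ IsSource G (toSet M) x := by
  unfold good
  rw [List.all_eq_true]
  constructor
  · intro h x
    have := h x.val (List.mem_range.2 x.isLt)
    rw [Bool.and_eq_true, Bool.not_eq_true', Bool.not_eq_true'] at this
    rw [sink_iff, source_iff, this.1, this.2]
    simp
  · intro h i hi
    rw [List.mem_range] at hi
    have := h ⟨i, hi⟩
    rw [sink_iff, source_iff] at this
    simpa using this

theorem rv_idx (u v : Fin 7) : rv (idx (u, v)) = idx (v, u) := by
  unfold rv idx
  simp only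
  omega

theorem leg_iff (M : ℕ) (u v : Fin 7) :
    Legal G (toSet M) u v ↔ (idx (u, v) ∈ darts ∧ leg M (idx (u, v)) = true) := by
  unfold Legal leg
  rw [insert_toSet, ← good_iff, darts_spec, mem_toSet, mem_toSet, rv_idx]
  simp only [Bool.and_eq_true, Bool.not_eq_true']
  constructor
  · rintro ⟨a, b, c, d⟩
    exact ⟨a, ⟨by simpa using b, by simpa using c⟩, d⟩
  · rintro ⟨a, ⟨b, c⟩, d⟩
    exact ⟨a, by rw [b]; simp, by rw [c]; simp, d⟩

/-- The certificate: positions with Player 1 to move reached by the strategy of Player 2. -/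
def L : List ℕ :=
  [0, 131074, 1048592, 1081368, 1179666, 3146256, 3277456, 8388736, 9437328, 9437848,
   270532608, 270569472, 8589934600, 8589938824, 8590987416, 8591114242, 8591114256,
   8591118354, 8591118864, 8593084944, 8598323210, 8598323840, 8599372424, 68720525312,
   68720558096, 68722622466, 68728914048, 68989091840, 68990009346, 77309444104, 77310459912,
   77310590994, 77312557074, 77318848522, 549755944960, 549755977730, 549758042240,
   550026477568, 618476470272, 618478567552, 618744905730, 618744905856, 618746871810,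
   618747002880, 618753163392, 2199023288320, 2199031648384, 2199031676944, 2199291723778,
   2199291822082, 2199293788162, 2199293952002, 2199300112394, 2207613190280, 2207613194392,
   2207613223040, 2207615451264, 2207621579400, 2207621582992, 2207621611530, 2207621611538,
   2267742765064, 2748779233280, 2748781199360, 2748781330434, 2748781330560, 2749049765888,
   2749055897728, 17592186048512, 17592186048648, 17592186179586, 17592188145666,
   17592194437136, 17592194437248, 17592454484480, 17592456577536, 17592462868608,
   17600775979144, 17600775983256, 17600776114194, 17600778080274, 17600784371712,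
   17600784371722, 17600784371730, 17600784371736, 17600784371856, 18141941993472,
   18141944090752, 18141944119298, 18141950247040, 18142210297992, 18142218686592,
   18210931868160, 18210938159232, 19791477740040, 19791477871104, 19791479837184,
   19799799235208, 19859928809496, 19859937198096, 19860197244936, 19860197343234,
   19860199309314, 19868518744072, 20340965249536, 20341235777536, 20341241938048,
   140737488355840, 140737488355984, 140737488491008, 140737489408016, 140737489440792,
   140737489539090, 140737489539600, 140737490453120, 140737490584208, 140737491505680,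
   140737496744080, 140737496744600, 140737497796752, 140737756791298, 140737757975040,
   140737759055872, 140737759936512, 140737759969282, 140737759973376, 140737765179914,
   140746078289944, 140746078290440, 140746079371288, 140746079469586, 140746080518784,
   140746081566736, 140746086679040, 140746086679050, 140746086679064, 140746086679176,
   140806207963138, 140806208913432, 140806211010576, 140806217302032, 140814797897746,
   140814798848008, 141287244300800, 141287245353472, 141287246398080, 141287246430210,
   141287512736384, 141287515881472, 141356232212482, 141356234178562]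

/-- The check of the certificate. -/
def ok (M : ℕ) : Bool :=
  darts.all (fun i => !leg M i ||
    (!cyc (M ||| 2 ^ i) && darts.any (fun j => leg (M ||| 2 ^ i) j &&
      (cyc ((M ||| 2 ^ i) ||| 2 ^ j) || L.contains ((M ||| 2 ^ i) ||| 2 ^ j)))))

theorem check : ∀ M ∈ L, ok M = true := by decide +kernel

theorem main (k : ℕ) : ∀ M ∈ L, 49 - (toSet M).card ≤ k → ∀ u v, Legal G (toSet M) u v →
    (¬ ∃ f, CycleCell D (insert (u, v) (toSet M)) f) ∧
      MoverWins D (insert (u, v) (toSet M)) := by
  induction k using Nat.strong_induction_on with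
  | _ k ih =>
    intro M hM hk u v hleg
    have hok := check M hM
    unfold ok at hok
    rw [List.all_eq_true] at hok
    have hleg0 := hleg
    rw [leg_iff] at hleg
    obtain ⟨hd, hl⟩ := hleg
    have h1 := hok _ hd
    rw [hl, Bool.not_true, Bool.false_or, Bool.and_eq_true, Bool.not_eq_true'] at h1
    obtain ⟨h2, h3⟩ := h1
    rw [List.any_eq_true] at h3
    obtain ⟨j, hj, h4⟩ := h3
    rw [Bool.and_eq_true] at h4
    obtain ⟨h5, h6⟩ := h4
    rw [insert_toSet]
    refine ⟨?_, ?_⟩
    · rw [← cyc_iff, h2]; simp
    have hj49 := darts_lt j hj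
    have hlegj : Legal G (toSet (M ||| 2 ^ idx (u, v))) (prt j).1 (prt j).2 := by
      rw [leg_iff, show ((prt j).1, (prt j).2) = prt j from rfl, idx_prt j hj49]
      exact ⟨hj, h5⟩
    have hins : insert ((prt j).1, (prt j).2) (toSet (M ||| 2 ^ idx (u, v))) =
        toSet ((M ||| 2 ^ idx (u, v)) ||| 2 ^ j) := by
      rw [insert_toSet, show ((prt j).1, (prt j).2) = prt j from rfl, idx_prt j hj49]
    by_cases hcyc : cyc ((M ||| 2 ^ idx (u, v)) ||| 2 ^ j) = true
    · exact MoverWins.cycle _ _ _ hlegj (by rw [hins, ← cyc_iff]; exact hcyc)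
    · have hL : ((M ||| 2 ^ idx (u, v)) ||| 2 ^ j) ∈ L := by
        rw [Bool.or_eq_true] at h6
        rcases h6 with h6 | h6
        · exact absurd h6 hcyc
        · simpa using h6
      have hcard : (toSet ((M ||| 2 ^ idx (u, v)) ||| 2 ^ j)).card = (toSet M).card + 2 := by
        rw [← hins, Finset.card_insert_of_notMem hlegj.2.1, ← insert_toSet,
          Finset.card_insert_of_notMem hleg0.2.1]
      have hcard49 : (toSet ((M ||| 2 ^ idx (u, v)) ||| 2 ^ j)).card ≤ 49 := by
        have := Finset.card_le_univ (toSet ((M ||| 2 ^ idx (u, v)) ||| 2 ^ j))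
        simpa using this
      have hrec := ih (49 - (toSet ((M ||| 2 ^ idx (u, v)) ||| 2 ^ j)).card) (by omega) _ hL le_rfl
      refine MoverWins.step _ _ _ hlegj ?_ ?_
      · intro x y hxy
        rw [hins] at hxy ⊢
        exact (hrec x y hxy).1
      · intro x y hxy
        rw [hins] at hxy ⊢
        exact (hrec x y hxy).2

theorem G_free : G.CliqueFree 3 := by
  intro s hs
  rw [SimpleGraph.is3Clique_iff] at hs
  obtain ⟨a, b, c, h1, h2, h3, -⟩ := hs
  revert a b c
  decide +kernel

/-- There is a triangle-free game board with 7 vertices, 9 edges and 4 regions on which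
Player 2 has a winning strategy in the Game of Cycles. -/
theorem result : ∃ (G : SimpleGraph (Fin 7)) (D : Drawing G (Fin 4)),
    G.CliqueFree 3 ∧ G.edgeSet.ncard = 9 ∧ PlayerTwoWins D := by
  refine ⟨G, D, G_free, edge_count, ?_⟩
  intro u v huv
  have h0 : (0 : ℕ) ∈ L := by decide
  have he : toSet 0 = (∅ : Finset (Fin 7 × Fin 7)) := by
    ext p; rw [mem_toSet]; simp
  have := main _ 0 h0 le_rfl u v
  rw [he] at this
  exact this huv

end Pool.Agent.Results.MP_b0ae03_co.ThreeRhombi
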